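import Pool.Agent.Y817.PD.Stm

/-! Codes closed under operations (helper817), part UPPER. -/

set_option autoImplicit false

namespace Pool.Agent.Y394.PD

open Pool.Agent.Y817.PD

section term
variable {S : Sig} {A V : Type}

theorem eval_mem {F : Alg S A} {U : Set A} (hU : Closed F U) {x : V → A} (hx : ∀ v, x v ∈ U)
    (t : Term S V) : t.eval F x ∈ U := by
  induction t with
  | var v => exact hx v
  | app j t ih => exact hU j _ ih

theorem eval_prod {ι : Type} (F : ι → Alg S A) (x : V → ι → A) (t : Term S V) (i : ι) :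
    t.eval (prodAlg F) x i = t.eval (F i) (fun v => x v i) := by
  induction t with
  | var v => rfl
  | app j t ih =>
    change F i j (fun l => (t l).eval (prodAlg F) x i) = F i j (fun l => (t l).eval (F i) _)
    congr 1
    funext l
    exact ih l

end term

section chain
variable {n : ℕ} {A V : Type}

/-- two words of `C` agreeing at some coordinate of `D` -/
def rel (C : Finset (Fin n → A)) (D : Finset (Fin n)) (x y : Fin n → A) : Prop :=
  x ∈ C ∧ y ∈ C ∧ ∃ i ∈ D, x i = y i

/-- connected by a chain -/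
def mu (C : Finset (Fin n → A)) (D : Finset (Fin n)) (x y : Fin n → A) : Prop :=
  Relation.ReflTransGen (rel C D) x y

variable {C : Finset (Fin n → A)} {D : Finset (Fin n)}

theorem rel_symm {x y : Fin n → A} (h : rel C D x y) : rel C D y x := by
  obtain ⟨hx, hy, i, hi, h⟩ := h
  exact ⟨hy, hx, i, hi, h.symm⟩

theorem mu_symm {x y : Fin n → A} (h : mu C D x y) : mu C D y x := by
  unfold mu at h ⊢
  induction h with
  | refl => exact Relation.ReflTransGen.refl
  | tail _ h2 ih => exact Relation.ReflTransGen.head (rel_symm h2) ih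

theorem mu_mem {x y : Fin n → A} (hx : x ∈ C) (h : mu C D x y) : y ∈ C := by
  unfold mu at h
  induction h with
  | refl => exact hx
  | tail _ h2 _ => exact h2.2.1

theorem chain [Finite V] (P : (V → Fin n → A) → Prop)
    (hP : ∀ w w' : V → Fin n → A, (∀ v, w v ∈ C) → (∀ v, w' v ∈ C) → ∀ i ∈ D,
      (∀ v, w v i = w' v i) → P w → P w') (w w' : V → Fin n → A) (hw : ∀ v, w v ∈ C)
    (hww : ∀ v, mu C D (w v) (w' v)) (h0 : P w) : P w' := by
  classical
  obtain ⟨_⟩ := nonempty_fintype V
  have key : ∀ s : Finset V, P (fun v => if v ∈ s then w' v else w v) := by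
    intro s
    induction s using Finset.induction_on with
    | empty => simpa using h0
    | insert a s ha ih =>
      set g : V → Fin n → A := fun v => if v ∈ s then w' v else w v with hg
      have hgC : ∀ v, g v ∈ C := by
        intro v
        simp only [hg]
        split_ifs
        · exact mu_mem (hw v) (hww v)
        · exact hw v
      have hga : g a = w a := by simp [hg, ha]
      have hstep : ∀ z, mu C D (w a) z → P (Function.update g a z) := by
        intro z hz
        unfold mu at hz
        induction hz with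
        | refl =>
          rw [← hga, Function.update_eq_self]
          exact ih
        | @tail b c _ h2 ih2 =>
          obtain ⟨hb, hc, i, hi, hbc⟩ := h2
          refine hP _ _ ?_ ?_ i hi ?_ ih2
          · intro v
            by_cases hv : v = a
            · subst hv; simpa using hb
            · rw [Function.update_of_ne hv]; exact hgC v
          · intro v
            by_cases hv : v = a
            · subst hv; simpa using hc
            · rw [Function.update_of_ne hv]; exact hgC v
          · intro v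
            by_cases hv : v = a
            · subst hv; simpa using hbc
            · rw [Function.update_of_ne hv, Function.update_of_ne hv]
      have h1 := hstep _ (hww a)
      have h2 : (fun v => if v ∈ insert a s then w' v else w v) = Function.update g a (w' a) := by
        funext v
        by_cases hv : v = a
        · subst hv; simp
        · rw [Function.update_of_ne hv]
          simp [hg, hv]
      rw [h2]
      exact h1
  simpa using key Finset.univ

end chain

section code
variable {A : Type} [Fintype A] [DecidableEq A] {n d : ℕ}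

theorem card_le_maxCode (hd : 1 ≤ d) (T : Finset (Fin n)) (C : Finset (Fin n → A))
    (h : ∀ x ∈ C, ∀ y ∈ C, x ≠ y → d ≤ (T.filter (fun i => x i ≠ y i)).card) :
    C.card ≤ maxCode A T.card d := by
  classical
  let e : Fin T.card ≃ T := T.equivFin.symm
  let f : (Fin n → A) → (Fin T.card → A) := fun x k => x (e k)
  have hdist : ∀ x y : Fin n → A, (T.filter (fun i => x i ≠ y i)).card ≤ hammingDist (f x) (f y) := by
    intro x y
    have hsub : T.filter (fun i => x i ≠ y i) ⊆
        (Finset.univ.filter (fun k : Fin T.card => f x k ≠ f y k)).image (fun k => (e k).1) := by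
      intro i hi
      rw [Finset.mem_filter] at hi
      rw [Finset.mem_image]
      refine ⟨e.symm ⟨i, hi.1⟩, ?_, by simp⟩
      rw [Finset.mem_filter]
      exact ⟨Finset.mem_univ _, by simpa [f] using hi.2⟩
    exact (Finset.card_le_card hsub).trans Finset.card_image_le
  have hinj : Set.InjOn f C := by
    intro x hx y hy hxy
    by_contra hne
    have h1 := (h x hx y hy hne).trans (hdist x y)
    rw [hxy, hammingDist_self] at h1
    omega
  rw [← Finset.card_image_of_injOn hinj]
  refine le_csSup ⟨Fintype.card (Fin T.card → A), ?_⟩ ⟨C.image f, ?_, rfl⟩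
  · rintro m ⟨C', _, rfl⟩
    exact Finset.card_le_univ C'
  · intro x' hx' y' hy' hne
    rw [Finset.mem_image] at hx' hy'
    obtain ⟨x, hx, rfl⟩ := hx'
    obtain ⟨y, hy, rfl⟩ := hy'
    exact (h x hx y hy fun h => hne (by rw [h])).trans (hdist x y)

end code

section alg
variable {A : Type} {n : ℕ} {S : Sig} {F : Fin n → Alg S A}
  {C : Finset (Fin n → A)} {D : Finset (Fin n)}

theorem not_total (hF : ∀ i, Idem (F i)) (hC : Closed (prodAlg F) (C : Set (Fin n → A)))
    {u v : Fin n → A} (hu : u ∈ C) (hv : v ∈ C) (huv : ∀ i, i ∉ D → u i = v i)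
    (hmin : ∀ x ∈ C, ∀ y ∈ C, (∀ i, i ∉ D → x i = y i) → (∃ i ∈ D, x i = y i) → x = y)
    {i₀ : Fin n} (hi₀ : i₀ ∈ D) (hne : u i₀ ≠ v i₀)
    (hA : ∀ U : Set A, Closed (F i₀) U → U.Nontrivial → ¬ Abelian (F i₀) U) :
    ¬ ∀ x ∈ C, ∀ y ∈ C, mu C D x y := by
  intro htot
  let U : Set A := {a | ∃ y ∈ C, (∀ i, i ∉ D → y i = u i) ∧ y i₀ = a}
  refine hA U ?_ ?_ ?_
  · intro j x hx
    choose X hXC hXu hX0 using hx
    refine ⟨prodAlg F j X, hC j X hXC, ?_, ?_⟩
    · intro i hi
      change F i j (fun l => X l i) = u i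
      have h1 : (fun l => X l i) = fun _ => u i := funext fun l => hXu l i hi
      rw [h1, hF i j]
    · change F i₀ j (fun l => X l i₀) = F i₀ j x
      congr 1
      exact funext hX0
  · exact ⟨u i₀, ⟨u, hu, fun _ _ => rfl, rfl⟩, v i₀, ⟨v, hv, fun i hi => (huv i hi).symm, rfl⟩, hne⟩
  · intro V W _ _ t x x' y y' hx hx' hy hy' heq
    choose X hXC hXu hX0 using hx
    choose X' hXC' hXu' hX0' using hx'
    choose Y hYC hYu hY0 using hy
    choose Y' hYC' hYu' hY0' using hy'
    have hmem : ∀ (w : V → Fin n → A) (y : W → Fin n → A), (∀ v, w v ∈ C) → (∀ v, y v ∈ C) →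
        t.eval (prodAlg F) (Sum.elim w y) ∈ C := by
      intro w y hw hy
      refine eval_mem (U := (C : Set (Fin n → A))) hC ?_ t
      rintro (v | v)
      · exact hw v
      · exact hy v
    have hcong : ∀ (w w' : V → Fin n → A) (y y' : W → Fin n → A) (i : Fin n),
        (∀ v, w v i = w' v i) → (∀ v, y v i = y' v i) →
        t.eval (prodAlg F) (Sum.elim w y) i = t.eval (prodAlg F) (Sum.elim w' y') i := by
      intro w w' y y' i h1 h2
      rw [eval_prod, eval_prod]
      congr 1
      funext v
      rcases v with v | v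
      · exact h1 v
      · exact h2 v
    have hP : ∀ w w' : V → Fin n → A, (∀ v, w v ∈ C) → (∀ v, w' v ∈ C) → ∀ i ∈ D,
        (∀ v, w v i = w' v i) →
        t.eval (prodAlg F) (Sum.elim w Y) = t.eval (prodAlg F) (Sum.elim w Y') →
        t.eval (prodAlg F) (Sum.elim w' Y) = t.eval (prodAlg F) (Sum.elim w' Y') := by
      intro w w' hw hw' i hi hwi h
      apply hmin _ (hmem w' Y hw' hYC) _ (hmem w' Y' hw' hYC')
      · intro i' hi'
        exact hcong _ _ _ _ _ (fun _ => rfl) fun v => by rw [hYu v i' hi', hYu' v i' hi']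
      · refine ⟨i, hi, ?_⟩
        rw [← hcong w w' Y Y i hwi fun _ => rfl, ← hcong w w' Y' Y' i hwi fun _ => rfl, h]
    have h0 : t.eval (prodAlg F) (Sum.elim X Y) = t.eval (prodAlg F) (Sum.elim X Y') := by
      apply hmin _ (hmem X Y hXC hYC) _ (hmem X Y' hXC hYC')
      · intro i' hi'
        exact hcong _ _ _ _ _ (fun _ => rfl) fun v => by rw [hYu v i' hi', hYu' v i' hi']
      · refine ⟨i₀, hi₀, ?_⟩
        rw [eval_prod, eval_prod]
        have e1 : (fun v => (Sum.elim X Y : V ⊕ W → Fin n → A) v i₀) = Sum.elim x y := by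
          funext v
          rcases v with v | v
          · exact hX0 v
          · exact hY0 v
        have e2 : (fun v => (Sum.elim X Y' : V ⊕ W → Fin n → A) v i₀) = Sum.elim x y' := by
          funext v
          rcases v with v | v
          · exact hX0 v
          · exact hY0' v
        rw [e1, e2]
        exact heq
    have h1 := chain (C := C) (D := D) (fun w => t.eval (prodAlg F) (Sum.elim w Y) =
      t.eval (prodAlg F) (Sum.elim w Y')) hP X X' hXC (fun v => htot _ (hXC v) _ (hXC' v)) h0
    have h2 := congrFun h1 i₀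
    rw [eval_prod, eval_prod] at h2
    have e1 : (fun v => (Sum.elim X' Y : V ⊕ W → Fin n → A) v i₀) = Sum.elim x' y := by
      funext v
      rcases v with v | v
      · exact hX0' v
      · exact hY0 v
    have e2 : (fun v => (Sum.elim X' Y' : V ⊕ W → Fin n → A) v i₀) = Sum.elim x' y' := by
      funext v
      rcases v with v | v
      · exact hX0' v
      · exact hY0' v
    rwa [e1, e2] at h2

open scoped Classical in
/-- the class of a word -/
noncomputable def cls (C : Finset (Fin n → A)) (D : Finset (Fin n)) (z : Fin n → A) :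
    Finset (Fin n → A) := C.filter fun w => mu C D z w

theorem mem_cls {z w : Fin n → A} : w ∈ cls C D z ↔ w ∈ C ∧ mu C D z w := by
  simp [cls]

theorem cls_eq {z w : Fin n → A} (h : mu C D z w) : cls C D z = cls C D w := by
  ext a
  rw [mem_cls, mem_cls]
  exact and_congr_right fun _ => ⟨fun h1 => (mu_symm h).trans h1, fun h1 => h.trans h1⟩

theorem cls_closed (hF : ∀ i, Idem (F i)) (hC : Closed (prodAlg F) (C : Set (Fin n → A)))
    {z : Fin n → A} (hz : z ∈ C) : Closed (prodAlg F) (cls C D z : Set (Fin n → A)) := by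
  intro j x hx
  have hx' : ∀ l, x l ∈ C ∧ mu C D z (x l) := fun l => mem_cls.1 (hx l)
  rw [Finset.mem_coe, mem_cls]
  refine ⟨hC j x fun l => (hx' l).1, ?_⟩
  refine chain (C := C) (D := D) (fun w => mu C D z (prodAlg F j w)) ?_ (fun _ => z) x
    (fun _ => hz) (fun l => (hx' l).2) ?_
  · intro w w' hw hw' i hi hww h
    refine h.tail ⟨hC j w hw, hC j w' hw', i, hi, ?_⟩
    change F i j (fun l => w l i) = F i j (fun l => w' l i)
    congr 1
    exact funext hww
  · have h1 : prodAlg F j (fun _ => z) = z := by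
      funext i
      exact hF i j (z i)
    rw [h1]
    exact Relation.ReflTransGen.refl

end alg

theorem hoelder {K : Type*} {n d : ℕ} (Q : Finset K) (D' : Finset (Fin n)) (hD' : D'.card = d)
    (hd : 1 ≤ d) (a : K → Fin n → ℝ) (c : Fin n → ℝ) (ha : ∀ k ∈ Q, ∀ i, 0 ≤ a k i)
    (hac : ∀ k ∈ Q, ∀ i, a k i ≤ c i) (hc : ∀ i, 0 < c i)
    (hsum : ∀ i ∈ D', ∑ k ∈ Q, a k i ≤ c i) :
    ∑ k ∈ Q, ∏ i, (a k i) ^ (1 / d : ℝ) ≤ ∏ i, (c i) ^ (1 / d : ℝ) := by
  have hd0 : (0 : ℝ) < d := by exact_mod_cast hd
  have h1 : ∀ k ∈ Q, ∏ i, (a k i) ^ (1 / d : ℝ) ≤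
      (∏ i, (c i) ^ (1 / d : ℝ)) * ∑ i ∈ D', (1 / d : ℝ) * (a k i / c i) := by
    intro k hk
    have hb0 : ∀ i, 0 ≤ a k i / c i := fun i => div_nonneg (ha k hk i) (hc i).le
    have hb1 : ∀ i, a k i / c i ≤ 1 := fun i => (div_le_one (hc i)).2 (hac k hk i)
    have h2 : ∏ i, (a k i) ^ (1 / d : ℝ) = (∏ i, (c i) ^ (1 / d : ℝ)) *
        ∏ i, (a k i / c i) ^ (1 / d : ℝ) := by
      rw [← Finset.prod_mul_distrib]
      refine Finset.prod_congr rfl fun i _ => ?_
      rw [← Real.mul_rpow (hc i).le (hb0 i), mul_div_cancel₀ _ (hc i).ne']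
    rw [h2]
    refine mul_le_mul_of_nonneg_left ?_ (Finset.prod_nonneg fun i _ => Real.rpow_nonneg (hc i).le _)
    have h3 : ∏ i, (a k i / c i) ^ (1 / d : ℝ) ≤ ∏ i ∈ D', (a k i / c i) ^ (1 / d : ℝ) := by
      rw [← Finset.prod_sdiff (Finset.subset_univ D')]
      refine mul_le_of_le_one_left (Finset.prod_nonneg fun i _ => Real.rpow_nonneg (hb0 i) _) ?_
      exact Finset.prod_le_one (fun i _ => Real.rpow_nonneg (hb0 i) _)
        fun i _ => Real.rpow_le_one (hb0 i) (hb1 i) (by positivity)
    refine h3.trans ?_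
    refine Real.geom_mean_le_arith_mean_weighted D' (fun _ => 1 / d) (fun i => a k i / c i) ?_ ?_ ?_
    · intro i _
      positivity
    · rw [Finset.sum_const, hD', nsmul_eq_mul]
      field_simp
    · intro i _
      exact hb0 i
  refine (Finset.sum_le_sum h1).trans ?_
  rw [← Finset.mul_sum]
  have hP : 0 ≤ ∏ i, (c i) ^ (1 / d : ℝ) := Finset.prod_nonneg fun i _ => Real.rpow_nonneg (hc i).le _
  have h4 : ∑ k ∈ Q, ∑ i ∈ D', (1 / d : ℝ) * (a k i / c i) ≤ 1 := by
    rw [Finset.sum_comm]
    have h5 : ∀ i ∈ D', ∑ k ∈ Q, (1 / d : ℝ) * (a k i / c i) ≤ 1 / d := by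
      intro i hi
      rw [← Finset.mul_sum, ← Finset.sum_div]
      have : (∑ k ∈ Q, a k i) / c i ≤ 1 := (div_le_one (hc i)).2 (hsum i hi)
      calc (1 / d : ℝ) * ((∑ k ∈ Q, a k i) / c i) ≤ (1 / d : ℝ) * 1 :=
            mul_le_mul_of_nonneg_left this (by positivity)
        _ = 1 / d := mul_one _
    refine (Finset.sum_le_sum h5).trans ?_
    rw [Finset.sum_const, hD', nsmul_eq_mul]
    apply le_of_eq
    field_simp
  calc _ ≤ (∏ i, (c i) ^ (1 / d : ℝ)) * 1 := mul_le_mul_of_nonneg_left h4 hP
    _ = _ := mul_one _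

theorem claim {A : Type} [Fintype A] [DecidableEq A] {n d : ℕ} {S : Sig} {F : Fin n → Alg S A}
    (hF : ∀ i, Idem (F i)) {T : Finset (Fin n)}
    (hA : ∀ i, i ∉ T → ∀ U : Set A, Closed (F i) U → U.Nontrivial → ¬ Abelian (F i) U)
    (hd : 1 ≤ d) (N : ℕ) : ∀ C : Finset (Fin n → A), C.card ≤ N → C.Nonempty →
      Closed (prodAlg F) (C : Set (Fin n → A)) → MinDist C d →
      (C.card : ℝ) ≤ (∏ i, ((C.image (fun x => x i)).card : ℝ) ^ (1 / d : ℝ)) *
        maxCode A T.card d := by
  classical
  induction N with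
  | zero =>
    intro C h1 h2
    have := h2.card_pos
    omega
  | succ N ih =>
    intro C hCN hCne hC hCd
    by_cases hT : ∀ x ∈ C, ∀ y ∈ C, x ≠ y → d ≤ (T.filter (fun i => x i ≠ y i)).card
    · have h1 := card_le_maxCode hd T C hT
      have h2 : (1 : ℝ) ≤ ∏ i, ((C.image (fun x => x i)).card : ℝ) ^ (1 / d : ℝ) := by
        rw [← Finset.prod_const_one (s := (Finset.univ : Finset (Fin n)))]
        refine Finset.prod_le_prod (fun _ _ => zero_le_one) fun i _ => ?_
        refine Real.one_le_rpow ?_ (by positivity)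
        exact_mod_cast (hCne.image _).card_pos
      have h3 : (C.card : ℝ) ≤ (maxCode A T.card d : ℝ) := by exact_mod_cast h1
      calc (C.card : ℝ) ≤ 1 * (maxCode A T.card d : ℝ) := by rw [one_mul]; exact h3
        _ ≤ _ := mul_le_mul_of_nonneg_right h2 (Nat.cast_nonneg _)
    · push Not at hT
      obtain ⟨x, hx, y, hy, hxy, hlt⟩ := hT
      let Dif : (Fin n → A) → (Fin n → A) → Finset (Fin n) := fun a b =>
        Finset.univ.filter fun i => a i ≠ b i
      have hDif : ∀ a b i, i ∈ Dif a b ↔ a i ≠ b i := fun a b i => by simp [Dif]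
      let Q := (C ×ˢ C).filter fun p => p.1 ≠ p.2 ∧ Dif p.1 p.2 ⊆ Dif x y
      have hQ : Q.Nonempty := ⟨(x, y), by simp [Q, hx, hy, hxy]⟩
      obtain ⟨⟨u, v⟩, huvQ, hmin0⟩ := Finset.exists_min_image Q (fun p => (Dif p.1 p.2).card) hQ
      rw [Finset.mem_filter, Finset.mem_product] at huvQ
      obtain ⟨⟨hu, hv⟩, huv, hDsub⟩ := huvQ
      simp only at hu hv huv hDsub hmin0
      set D := Dif u v with hD
      have hmin : ∀ a ∈ C, ∀ b ∈ C, (∀ i, i ∉ D → a i = b i) → (∃ i ∈ D, a i = b i) → a = b := by
        rintro a ha b hb h1 ⟨i, hi, h2⟩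
        by_contra hab
        have h3 : Dif a b ⊆ D := by
          intro i' hi'
          by_contra hi''
          exact (hDif a b i').1 hi' (h1 i' hi'')
        have h4 : (a, b) ∈ Q := by
          rw [Finset.mem_filter, Finset.mem_product]
          exact ⟨⟨ha, hb⟩, hab, h3.trans hDsub⟩
        have h5 := hmin0 _ h4
        have h6 : Dif a b ⊂ D := by
          refine (Finset.ssubset_iff_of_subset h3).2 ⟨i, hi, fun h => (hDif a b i).1 h h2⟩
        exact absurd (Finset.card_lt_card h6) (not_lt.2 h5)
      have hDd : d ≤ D.card := hCd u hu v hv huv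
      obtain ⟨i₀, hi₀, hi₀T⟩ : ∃ i₀ ∈ D, i₀ ∉ T := by
        by_contra hcon
        push Not at hcon
        have h1 : D ⊆ T.filter (fun i => x i ≠ y i) := by
          intro i hi
          rw [Finset.mem_filter]
          exact ⟨hcon i hi, (hDif x y i).1 (hDsub hi)⟩
        have := Finset.card_le_card h1
        omega
      have hnt := not_total hF hC hu hv (fun i hi => by
        by_contra h
        exact hi ((hDif u v i).2 h)) hmin hi₀ ((hDif u v i₀).1 hi₀) (hA i₀ hi₀T)
      push Not at hnt
      obtain ⟨p, hp, q, hq, hpq⟩ := hnt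
      have hself : ∀ z ∈ C, z ∈ cls C D z := fun z hz => mem_cls.2 ⟨hz, Relation.ReflTransGen.refl⟩
      have hlt' : ∀ z ∈ C, (cls C D z).card < C.card := by
        intro z hz
        refine Finset.card_lt_card ((Finset.ssubset_iff_subset_ne).2
          ⟨fun w hw => (mem_cls.1 hw).1, fun h => ?_⟩)
        have h1 : mu C D z p := (mem_cls.1 (by rw [h]; exact hp : p ∈ cls C D z)).2
        have h2 : mu C D z q := (mem_cls.1 (by rw [h]; exact hq : q ∈ cls C D z)).2
        exact hpq ((mu_symm h1).trans h2)
      have hIH : ∀ K ∈ C.image (cls C D), (K.card : ℝ) ≤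
          (∏ i, ((K.image (fun x => x i)).card : ℝ) ^ (1 / d : ℝ)) * maxCode A T.card d := by
        intro K hK
        obtain ⟨z, hz, rfl⟩ := Finset.mem_image.1 hK
        refine ih _ ?_ ⟨z, hself z hz⟩ (cls_closed hF hC hz) ?_
        · have := hlt' z hz
          omega
        · intro a ha b hb hab
          exact hCd a (mem_cls.1 ha).1 b (mem_cls.1 hb).1 hab
      have hcard : (C.card : ℝ) = ∑ K ∈ C.image (cls C D), (K.card : ℝ) := by
        rw [Finset.card_eq_sum_card_image (cls C D) C, Nat.cast_sum]
        refine Finset.sum_congr rfl fun K hK => ?_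
        obtain ⟨z, hz, rfl⟩ := Finset.mem_image.1 hK
        congr 2
        ext a
        rw [Finset.mem_filter, mem_cls]
        refine and_congr_right fun ha => ⟨fun h => ?_, fun h => (cls_eq h).symm⟩
        have := hself a ha
        rw [h] at this
        exact (mem_cls.1 this).2
      obtain ⟨D', hD'D, hD'⟩ := Finset.exists_subset_card_eq hDd
      have hho := hoelder (C.image (cls C D)) D' hD' hd
        (fun K i => ((K.image (fun x => x i)).card : ℝ))
        (fun i => ((C.image (fun x => x i)).card : ℝ)) (fun _ _ _ => Nat.cast_nonneg _) (by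
          intro K hK i
          obtain ⟨z, hz, rfl⟩ := Finset.mem_image.1 hK
          exact_mod_cast Finset.card_le_card (Finset.image_subset_image
            fun w hw => (mem_cls.1 hw).1)) (fun i => by
          exact_mod_cast (hCne.image _).card_pos) (by
          intro i hi
          have hdisj : Set.PairwiseDisjoint (↑(C.image (cls C D)) : Set (Finset (Fin n → A)))
              (fun K : Finset (Fin n → A) => K.image (fun x => x i)) := by
            intro K hK K' hK' hne
            obtain ⟨z, hz, rfl⟩ := Finset.mem_image.1 (Finset.mem_coe.1 hK)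
            obtain ⟨z', hz', rfl⟩ := Finset.mem_image.1 (Finset.mem_coe.1 hK')
            rw [Function.onFun, Finset.disjoint_left]
            intro a ha ha'
            obtain ⟨w, hw, rfl⟩ := Finset.mem_image.1 ha
            obtain ⟨w', hw', hww⟩ := Finset.mem_image.1 ha'
            apply hne
            have h1 : mu C D w w' := Relation.ReflTransGen.single
              ⟨(mem_cls.1 hw).1, (mem_cls.1 hw').1, i, hD'D hi, hww.symm⟩
            rw [cls_eq (mem_cls.1 hw).2, cls_eq (mem_cls.1 hw').2, cls_eq h1]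
          rw [← Nat.cast_sum, ← Finset.card_biUnion hdisj]
          refine Nat.cast_le.2 (Finset.card_le_card ?_)
          intro a ha
          obtain ⟨K, hK, haK⟩ := Finset.mem_biUnion.1 ha
          obtain ⟨z, hz, rfl⟩ := Finset.mem_image.1 hK
          exact Finset.image_subset_image (fun w hw => (mem_cls.1 hw).1) haK)
      rw [hcard]
      refine (Finset.sum_le_sum hIH).trans ?_
      rw [← Finset.sum_mul]
      exact mul_le_mul_of_nonneg_right hho (Nat.cast_nonneg _)

theorem t : Pool.Agent.Y817.PD.StmUpper := by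
  classical
  intro S A _ _ n d F T C hd hF hA hC hCd
  rcases C.eq_empty_or_nonempty with rfl | hne
  · rw [Finset.card_empty, zero_pow (by omega)]
    exact Nat.zero_le _
  · have h1 := claim hF hA hd C.card C le_rfl hne hC hCd
    have hd0 : (d : ℝ) ≠ 0 := by exact_mod_cast (by omega : d ≠ 0)
    have h2 : ((C.card : ℝ)) ^ d ≤ (Fintype.card A : ℝ) ^ n * (maxCode A T.card d : ℝ) ^ d := by
      refine (pow_le_pow_left₀ (Nat.cast_nonneg _) h1 d).trans ?_
      rw [mul_pow]
      refine mul_le_mul_of_nonneg_right ?_ (by positivity)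
      rw [← Finset.prod_pow]
      have h3 : ∀ i : Fin n, (((C.image (fun x => x i)).card : ℝ) ^ (1 / d : ℝ)) ^ d =
          ((C.image (fun x => x i)).card : ℝ) := by
        intro i
        rw [← Real.rpow_natCast, ← Real.rpow_mul (Nat.cast_nonneg _), one_div_mul_cancel hd0,
          Real.rpow_one]
      rw [Finset.prod_congr rfl fun i _ => h3 i]
      calc ∏ i : Fin n, ((C.image (fun x => x i)).card : ℝ)
          ≤ ∏ _i : Fin n, (Fintype.card A : ℝ) := by
            refine Finset.prod_le_prod (fun _ _ => Nat.cast_nonneg _) fun i _ => ?_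
            exact_mod_cast Finset.card_le_univ _
        _ = (Fintype.card A : ℝ) ^ n := by simp
    exact_mod_cast h2

end Pool.Agent.Y394.PD
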